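import Pool.Agent.H62.BC.Targets

/-!
# MP_44217d_ag, board `cat2_modules`, L4: every matrix is a bounded sum of powers of good matrices
-/

set_option autoImplicit false

open TensorProduct Module
open Pool.Agent.H12.Defect Pool.Agent.H15.Defect Pool.Agent.H15.CX Pool.Agent.H2.WG

namespace Pool.Agent.H35.BC

open Pool.Agent.H62.BC

universe u

variable {k : Type u} [Field k] {I : Type} [Fintype I] [DecidableEq I]

/-- sums of `c` powers of good matrices -/
def SS (j c : ℕ) (B : Matrix I I k) : Prop :=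
  ∃ M : Fin c → Matrix I I k, (∀ i, GoodMat (M i)) ∧ B = ∑ i, M i ^ j

theorem SS.add {j c d : ℕ} {A B : Matrix I I k} (hA : SS j c A) (hB : SS j d B) :
    SS j (c + d) (A + B) := by
  obtain ⟨M, hM, hA⟩ := hA
  obtain ⟨N, hN, hB⟩ := hB
  refine ⟨Fin.append M N, ?_, ?_⟩
  · intro i
    refine Fin.addCases (fun i => ?_) (fun i => ?_) i
    · rw [Fin.append_left]
      exact hM i
    · rw [Fin.append_right]
      exact hN i
  · rw [Fin.sum_univ_add, hA, hB]
    simp only [Fin.append_left, Fin.append_right]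

theorem SS.zero {j : ℕ} (hj : 1 ≤ j) (c : ℕ) : SS j c (0 : Matrix I I k) := by
  refine ⟨fun _ => 0, fun _ => Or.inl IsNilpotent.zero, ?_⟩
  have h0 : (0 : Matrix I I k) ^ j = 0 := zero_pow (by omega)
  simp only [h0, Finset.sum_const_zero]

theorem SS.one {j : ℕ} {M : Matrix I I k} (hM : GoodMat M) : SS j 1 (M ^ j) :=
  ⟨fun _ => M, fun _ => hM, by simp⟩

theorem SS.sum {j c : ℕ} : ∀ {n : ℕ} (B : Fin n → Matrix I I k), (∀ a, SS j c (B a)) →
    SS j (n * c) (∑ a, B a) := by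
  intro n
  induction n with
  | zero =>
    intro B _
    rw [Nat.zero_mul]
    exact ⟨fun i => i.elim0, fun i => i.elim0, by simp⟩
  | succ n ih =>
    intro B hB
    have h1 := (hB 0).add (ih (fun a => B a.succ) fun a => hB a.succ)
    rw [Fin.sum_univ_succ]
    have h2 : (n + 1) * c = c + n * c := by ring
    rw [h2]
    exact h1

theorem SS.nil {q h j : ℕ} {M : Matrix (Fin q) (Fin q) (Matrix (Fin h) (Fin h) k)}
    (hM : IsNilpotent M) : SS j 1 (Matrix.compRingEquiv (Fin q) (Fin h) k (M ^ j)) := by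
  rw [map_pow]
  exact SS.one (Or.inl (hM.map _))

theorem single_sum {R : Type u} [Ring R] {n m : ℕ} (i j : Fin n) (f : Fin m → R) :
    Matrix.single i j (∑ a, f a) = ∑ a, Matrix.single i j (f a) :=
  map_sum (Matrix.singleAddMonoidHom i j) f Finset.univ

theorem offd (h1 : T_A1.{u}) {q h j : ℕ} (hj : 1 ≤ j) (hq : j + 1 ≤ q) (a b : Fin q)
    (hab : a ≠ b) (x : Matrix (Fin h) (Fin h) k) :
    SS j 1 (Matrix.compRingEquiv (Fin q) (Fin h) k (Matrix.single a b x)) := by
  obtain ⟨M, hM, hMj⟩ := h1 (Matrix (Fin h) (Fin h) k) q j a b x hab hj hq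
  rw [← hMj]
  exact SS.nil hM

theorem diagd (h2 : T_A2.{u}) {q h j : ℕ} (hj : 1 ≤ j) (hq : j + 1 ≤ q) (a b : Fin q)
    (x : Matrix (Fin h) (Fin h) k) :
    SS j 3 (Matrix.compRingEquiv (Fin q) (Fin h) k
      (Matrix.single a a x - Matrix.single b b x)) := by
  by_cases hab : a = b
  · rw [hab, sub_self, map_zero]
    exact SS.zero hj 3
  · obtain ⟨M₁, M₂, M₃, hM₁, hM₂, hM₃, hM⟩ := h2 (Matrix (Fin h) (Fin h) k) q j a b x hab hj hq
    rw [hM, map_add, map_add]
    exact ((SS.nil hM₁).add (SS.nil hM₂)).add (SS.nil hM₃)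

theorem tri [Infinite k] (h2 : T_A2.{u}) (h3 : T_A3.{u}) (h4 : T_A4.{u}) {q h j : ℕ} (hj : 1 ≤ j)
    (hq : j + 1 ≤ q) (o : Fin q) (N : Matrix (Fin h) (Fin h) k)
    (hN : (∀ i l, i ≤ l → N i l = 0) ∨ (∀ i l, l ≤ i → N i l = 0)) :
    SS j (1 + q * 3) (Matrix.compRingEquiv (Fin q) (Fin h) k (Matrix.single o o N)) := by
  obtain ⟨D, G, hDG, hsum⟩ := h4 k h j N hj hN
  obtain ⟨M, C, hM, hMC, hC⟩ := h3 (Matrix (Fin h) (Fin h) k) q j D G hj (by omega) hDG
  have hN' : Matrix.single o o N = M ^ j +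
      ∑ a, (Matrix.single o o (C a) - Matrix.single a a (C a)) := by
    rw [Finset.sum_sub_distrib, ← single_sum, Matrix.sum_single_eq_diagonal, hC, hsum, hMC]
    abel
  rw [hN', map_add, map_sum]
  exact (SS.nil hM).add (SS.sum _ fun a => diagd h2 hj hq o a (C a))

theorem rnk [IsAlgClosed k] (h5 : T_A5.{u}) {q h j : ℕ} (hj : 1 ≤ j) (o : Fin q)
    (u w : Fin h → k) :
    SS j 2 (Matrix.compRingEquiv (Fin q) (Fin h) k
      (Matrix.single o o (Matrix.vecMulVec u w))) := by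
  obtain ⟨u₁, w₁, u₂, w₂, huw⟩ := h5 k (Fin q × Fin h) j
    (fun p => if p.1 = o then u p.2 else 0) (fun p => if p.1 = o then w p.2 else 0) hj
  have h6 : Matrix.compRingEquiv (Fin q) (Fin h) k
      (Matrix.single o o (Matrix.vecMulVec u w)) =
      Matrix.vecMulVec (fun p => if p.1 = o then u p.2 else 0)
        (fun p => if p.1 = o then w p.2 else 0) := by
    ext ⟨a, i⟩ ⟨b, l⟩
    rw [Matrix.compRingEquiv_apply, Matrix.comp_apply, Matrix.vecMulVec_apply]
    change (if o = a ∧ o = b then Matrix.vecMulVec u w else 0 : Matrix (Fin h) (Fin h) k) i l =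
      (if a = o then u i else 0) * (if b = o then w l else 0)
    by_cases ha : a = o
    · by_cases hb : b = o
      · rw [if_pos ⟨ha.symm, hb.symm⟩, if_pos ha, if_pos hb, Matrix.vecMulVec_apply]
      · rw [if_neg (fun h => hb h.2.symm), if_neg hb, mul_zero, Matrix.zero_apply]
    · rw [if_neg (fun h => ha h.1.symm), if_neg ha, zero_mul, Matrix.zero_apply]
  rw [h6, huw]
  exact (SS.one (Or.inr ⟨u₁, w₁, rfl⟩)).add (SS.one (Or.inr ⟨u₂, w₂, rfl⟩))

theorem corner [IsAlgClosed k] (h2 : T_A2.{u}) (h3 : T_A3.{u}) (h4 : T_A4.{u}) (h5 : T_A5.{u})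
    {q h j : ℕ} (hj : 1 ≤ j) (hq : j + 1 ≤ q) (o : Fin q) (X : Matrix (Fin h) (Fin h) k) :
    SS j ((1 + q * 3) + (1 + q * 3) + 2)
      (Matrix.compRingEquiv (Fin q) (Fin h) k (Matrix.single o o X)) := by
  have : Infinite k := IsAlgClosed.instInfinite
  obtain ⟨V, hV⟩ : ∃ V : Matrix (Fin h) (Fin h) k, V = Matrix.vecMulVec (fun _ => 1)
    (fun l => X l l) := ⟨_, rfl⟩
  obtain ⟨N₁, hN₁⟩ : ∃ N₁ : Matrix (Fin h) (Fin h) k,
    N₁ = Matrix.of fun i l => if l < i then X i l - V i l else 0 := ⟨_, rfl⟩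
  obtain ⟨N₂, hN₂⟩ : ∃ N₂ : Matrix (Fin h) (Fin h) k,
    N₂ = Matrix.of fun i l => if i < l then X i l - V i l else 0 := ⟨_, rfl⟩
  have hX : X = N₁ + N₂ + V := by
    ext i l
    rw [Matrix.add_apply, Matrix.add_apply, hN₁, hN₂]
    simp only [Matrix.of_apply]
    rcases lt_trichotomy i l with h | h | h
    · rw [if_neg (not_lt.2 h.le), if_pos h]
      ring
    · rw [if_neg (by rw [h]; exact lt_irrefl _), if_neg (by rw [h]; exact lt_irrefl _), hV,
        Matrix.vecMulVec_apply, h]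
      ring
    · rw [if_pos h, if_neg (not_lt.2 h.le)]
      ring
  have hs : Matrix.single o o X = Matrix.single o o N₁ + Matrix.single o o N₂ +
      Matrix.single o o V := by
    rw [← Matrix.single_add, ← Matrix.single_add, ← hX]
  rw [hs, map_add, map_add]
  refine ((tri h2 h3 h4 hj hq o N₁ (Or.inl ?_)).add
    (tri h2 h3 h4 hj hq o N₂ (Or.inr ?_))).add ?_
  · intro i l hil
    rw [hN₁, Matrix.of_apply, if_neg (not_lt.2 hil)]
  · intro i l hil
    rw [hN₂, Matrix.of_apply, if_neg (not_lt.2 hil)]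
  · rw [hV]
    exact rnk h5 hj o _ _

theorem pf_L4 (h1 : T_A1.{u}) (h2 : T_A2.{u}) (h3 : T_A3.{u}) (h4 : T_A4.{u}) (h5 : T_A5.{u}) :
    T_L4.{u} := by
  intro k _ _ q j hj hq
  refine ⟨q * (q * 1) + (q * 3 + ((1 + q * 3) + (1 + q * 3) + 2)), fun h B => ?_⟩
  have o : Fin q := ⟨0, by omega⟩
  obtain ⟨B', hB'⟩ : ∃ B' : Matrix (Fin q) (Fin q) (Matrix (Fin h) (Fin h) k),
    Matrix.compRingEquiv (Fin q) (Fin h) k B' = B := ⟨_, RingEquiv.apply_symm_apply _ _⟩
  have key : B' = ∑ a, ∑ b, (if a = b then 0 else Matrix.single a b (B' a b)) +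
      (∑ a, (Matrix.single a a (B' a a) - Matrix.single o o (B' a a)) +
        Matrix.single o o (∑ a, B' a a)) := by
    have e1 : ∑ a, ∑ b, Matrix.single a b (B' a b) =
        ∑ a, ∑ b, (if a = b then 0 else Matrix.single a b (B' a b)) +
          ∑ a, Matrix.single a a (B' a a) := by
      rw [← Finset.sum_add_distrib]
      refine Finset.sum_congr rfl fun a _ => ?_
      have e2 : Matrix.single a a (B' a a) =
          ∑ b, (if a = b then Matrix.single a b (B' a b) else 0) := by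
        rw [Finset.sum_ite_eq, if_pos (Finset.mem_univ a)]
      rw [e2, ← Finset.sum_add_distrib]
      refine Finset.sum_congr rfl fun b _ => ?_
      split_ifs <;> simp
    rw [Finset.sum_sub_distrib, single_sum, sub_add_cancel, ← e1]
    exact Matrix.matrix_eq_sum_single B'
  have hSS : SS j (q * (q * 1) + (q * 3 + ((1 + q * 3) + (1 + q * 3) + 2))) B := by
    rw [← hB', key, map_add, map_add, map_sum, map_sum]
    refine SS.add (SS.sum _ fun a => ?_) ((SS.sum _ fun a => ?_).add ?_)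
    · rw [map_sum]
      refine SS.sum _ fun b => ?_
      by_cases hab : a = b
      · rw [if_pos hab, map_zero]
        exact SS.zero hj 1
      · rw [if_neg hab]
        exact offd h1 hj hq a b hab _
    · exact diagd h2 hj hq a o _
    · exact corner h2 h3 h4 h5 hj hq o _
  exact hSS

end Pool.Agent.H35.BC
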