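import Pool.Agent.H85.BC.Basic

set_option autoImplicit false

open scoped InnerProductSpace Topology
open Filter

namespace Pool.Agent.H35.BC

open Pool.Agent.H85.BC

theorem pf_SL {H : Type} [NormedAddCommGroup H] [InnerProductSpace ℂ H] [CompleteSpace H] :
    T_SL H := by
  intro N ξ hξ x C hx hC hcau
  have hC0 : 0 ≤ C := (norm_nonneg _).trans (hC 0)
  have hall : ∀ η : H, ∃ l : H, Tendsto (fun n => x n η) atTop (𝓝 l) := by
    intro η
    apply cauchySeq_tendsto_of_complete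
    rw [Metric.cauchySeq_iff]
    intro ε hε
    obtain ⟨y, hy, hyη⟩ := hξ.cyclic η (ε / (4 * (C + 1))) (by positivity)
    obtain ⟨n₀, hn₀⟩ := Metric.cauchySeq_iff.1 hcau (ε / (2 * (‖y‖ + 1))) (by positivity)
    refine ⟨n₀, fun m hm n hn => ?_⟩
    have h1 : ‖(x m - x n) ξ‖ < ε / (2 * (‖y‖ + 1)) := by
      have := hn₀ m hm n hn
      rw [dist_eq_norm] at this
      simpa using this
    have h2 : ‖((x m - x n) * y) ξ‖ ≤ ‖y‖ * ‖(x m - x n) ξ‖ :=
      hξ.norm_mul_right (sub_mem (hx m) (hx n)) hy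
    have h3 : ‖(x m - x n) (η - y ξ)‖ ≤ (2 * C) * ‖η - y ξ‖ := by
      refine ((x m - x n).le_opNorm _).trans ?_
      apply mul_le_mul_of_nonneg_right _ (norm_nonneg _)
      calc ‖x m - x n‖ ≤ ‖x m‖ + ‖x n‖ := norm_sub_le _ _
        _ ≤ 2 * C := by linarith [hC m, hC n]
    have h4 : x m η - x n η = (x m - x n) (η - y ξ) + ((x m - x n) * y) ξ := by
      rw [mul_app, map_sub]
      simp
    rw [dist_eq_norm, h4]
    have h5 : (2 * C) * ‖η - y ξ‖ ≤ ε / 2 := by
      have h6 : (2 * C) * ‖η - y ξ‖ ≤ (2 * C) * (ε / (4 * (C + 1))) :=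
        mul_le_mul_of_nonneg_left hyη.le (by positivity)
      have h7 : (2 * C) * (ε / (4 * (C + 1))) ≤ ε / 2 := by
        rw [mul_div_assoc', div_le_div_iff₀ (by positivity) (by norm_num)]
        nlinarith
      linarith
    have h8 : ‖y‖ * ‖(x m - x n) ξ‖ < ε / 2 := by
      have h9 : ‖y‖ * ‖(x m - x n) ξ‖ ≤ (‖y‖ + 1) * ‖(x m - x n) ξ‖ :=
        mul_le_mul_of_nonneg_right (by linarith) (norm_nonneg _)
      have h10 : (‖y‖ + 1) * ‖(x m - x n) ξ‖ < (‖y‖ + 1) * (ε / (2 * (‖y‖ + 1))) :=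
        mul_lt_mul_of_pos_left h1 (by positivity)
      have h11 : (‖y‖ + 1) * (ε / (2 * (‖y‖ + 1))) = ε / 2 := by
        field_simp
      linarith
    calc ‖(x m - x n) (η - y ξ) + ((x m - x n) * y) ξ‖
        ≤ ‖(x m - x n) (η - y ξ)‖ + ‖((x m - x n) * y) ξ‖ := norm_add_le _ _
      _ < ε := by linarith
  choose g hg using hall
  have hg' : Tendsto (fun n η => x n η) atTop (𝓝 g) := tendsto_pi_nhds.2 hg
  set z : H →L[ℂ] H := continuousLinearMapOfTendsto x hg' with hz
  have hzη : ∀ η, z η = g η := fun η => rfl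
  have hlim : ∀ η : H, Tendsto (fun n => x n η) atTop (𝓝 (z η)) := fun η => by
    rw [hzη]
    exact hg η
  refine ⟨z, ?_, ?_, hlim⟩
  · apply mem_of_commutant
    intro t ht
    ext η
    rw [mul_app, mul_app]
    have h1 : Tendsto (fun n => t (x n η)) atTop (𝓝 (t (z η))) :=
      (t.continuous.tendsto _).comp (hlim η)
    have h2 : (fun n => t (x n η)) = fun n => x n (t η) := by
      funext n
      have := ht (x n) (hx n)
      have h3 := congrArg (fun w : H →L[ℂ] H => w η) this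
      simpa [mul_app] using h3.symm
    rw [h2] at h1
    exact tendsto_nhds_unique h1 (hlim (t η))
  · apply ContinuousLinearMap.opNorm_le_bound _ hC0
    intro η
    refine le_of_tendsto (hlim η).norm (Eventually.of_forall fun n => ?_)
    exact ((x n).le_opNorm η).trans (mul_le_mul_of_nonneg_right (hC n) (norm_nonneg _))

end Pool.Agent.H35.BC
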